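import Pool.Agent.TH646.LV.Level
import Pool.Agent.X31.M3

/-!
# Level of distribution `N exp (-K (log log N) ^ 2)` for all residues near
# the values of bilinear functions at pairs of integers with missing digits

`C₁`, `C₂` are sets of integers with `mᵢ` digits in base `bᵢ` whose digit at `bᵢ ^ j` is in `𝒟ᵢ j`, where the sets
`𝒟ᵢ j` of allowed digits are arbitrary with at least TWO elements (for instance: the integers with the decimal digits
`0` and `1` only; the product of the two sets can be as thin as `N ^ ε`), `θ` is a real number and `g`, `h` are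
ARBITRARY real functions. The values considered are `θ x y + g(x) + h(y)`; for `θ = 1`, `g = h = 0` these are the
products of two integers with missing digits.
For almost all elements `n` of an ARBITRARY dense subset `M` of `C₁ × C₂`, ALL residues `r > 0` within `log ^ D N` of the value at `n`
satisfy an inequality of Bombieri-Vinogradov type, with arbitrary bounded weights and with the level
`N exp (-K (log log N) ^ 2)`, far beyond `N ^ {1/2}`. The number of the residues can be as small as `N ^ ε`.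

The minimal real additive energy of these values is from `Pool.Agent.X31.M1` - `M3` (in this run);
the level of distribution for families of small energy is `Pool.Agent.TH646.LV.lv_fam` (starting files).
-/

set_option autoImplicit false

namespace Pool.Agent.Results.MP_00e23e_nt.BilinearResidues

open Finset

/-- the integers `0 ≤ n < b ^ m` whose digit at `b ^ j` in base `b` is in `𝒟 j`, for all `j < m` -/
def Digits (b : ℕ) (𝒟 : ℕ → Finset ℕ) (m : ℕ) : Finset ℕ :=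
  (range (b ^ m)).filter (fun n => ∀ j < m, n / b ^ j % b ∈ 𝒟 j)

/-- the bilinear function `θ x y + g(x) + h(y)` -/
def bil (θ : ℝ) (g h : ℕ → ℝ) (n : ℕ × ℕ) : ℝ := θ * ((n.1 : ℝ) * n.2) + g n.1 + h n.2

/-- `M` is a set of pairs in `Digits b₁ 𝒟₁ m₁ × Digits b₂ 𝒟₂ m₂` with at least `1 / log ^ D N` of all these pairs, where
all sets `𝒟ᵢ j` of allowed digits have at least two elements and `m₁ ≤ l m₂`, `m₂ ≤ l m₁`; the number `θ` is at most
`log ^ D N` and at least `N / (b₁ ^ m₁ b₂ ^ m₂ log ^ D N)` in absolute value; `g` and `h` are ARBITRARY functions with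
`|bil θ g h| ≤ N` on `M`. -/
def Fam (b₁ b₂ l D N m₁ m₂ : ℕ) (𝒟₁ 𝒟₂ : ℕ → Finset ℕ) (θ : ℝ) (g h : ℕ → ℝ) (M : Finset (ℕ × ℕ)) : Prop :=
  (∀ j, 𝒟₁ j ⊆ range b₁ ∧ 2 ≤ (𝒟₁ j).card) ∧ (∀ j, 𝒟₂ j ⊆ range b₂ ∧ 2 ≤ (𝒟₂ j).card) ∧
  m₁ ≤ l * m₂ ∧ m₂ ≤ l * m₁ ∧
  |θ| ≤ Real.log N ^ D ∧ (N : ℝ) / Real.log N ^ D ≤ |θ| * ((b₁ : ℝ) ^ m₁ * (b₂ : ℝ) ^ m₂) ∧
  M ⊆ Digits b₁ 𝒟₁ m₁ ×ˢ Digits b₂ 𝒟₂ m₂ ∧
  ((Digits b₁ 𝒟₁ m₁).card * (Digits b₂ 𝒟₂ m₂).card : ℝ) / Real.log N ^ D ≤ M.card ∧ ∀ n ∈ M, |bil θ g h n| ≤ N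

/-- `ψ(y; q, r)`: the sum of `Λ(n)` over the `n ≤ y` with `n ≡ r (mod q)`. -/
noncomputable def psi (y q r : ℕ) : ℝ :=
  ∑ n ∈ (Icc 1 y).filter (fun n => n ≡ r [MOD q]), ArithmeticFunction.vonMangoldt n

/-- The sum of `λ(q) (ψ(y; q, r) - y / φ(q))` over the `q ≤ Q` coprime to `r`. -/
noncomputable def weighted (lam : ℕ → ℝ) (Q y r : ℕ) : ℝ :=
  ∑ q ∈ (Icc 1 Q).filter (fun q => r.Coprime q), lam q * (psi y q r - (y : ℝ) / Nat.totient q)

/-- The level `N exp (-K (log log N) ^ 2)`, rounded down. -/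
noncomputable def level (K N : ℕ) : ℕ := ⌊(N : ℝ) * Real.exp (-(K * Real.log (Real.log N) ^ 2))⌋₊

lemma dat_of {b₁ b₂ l D N m₁ m₂ : ℕ} {𝒟₁ 𝒟₂ : ℕ → Finset ℕ} {θ : ℝ} {g h : ℕ → ℝ} {M : Finset (ℕ × ℕ)}
    (H : Fam b₁ b₂ l D N m₁ m₂ 𝒟₁ 𝒟₂ θ g h M) : Pool.Agent.X31.CT.Dat2 b₁ b₂ l D N m₁ m₂ 𝒟₁ 𝒟₂ θ g h M :=
  ⟨H.1, H.2.1, H.2.2.1, H.2.2.2.1, H.2.2.2.2.1, H.2.2.2.2.2.1, H.2.2.2.2.2.2.1, H.2.2.2.2.2.2.2.1,
    H.2.2.2.2.2.2.2.2⟩

/-- Let `b₁, b₂ ≥ 2` and `l ≥ 1` be integers. Let `B`, `D`, `T`, `U` be natural numbers. There is a `K` such that for all sufficiently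
large `N`, all numbers `m₁`, `m₂` of digits, ALL sets `𝒟ᵢ j` of allowed
digits, all `θ`, ALL functions `g`, `h` and all sets `M` of pairs with `Fam b₁ b₂ l D N m₁ m₂ 𝒟₁ 𝒟₂ θ g h M`, and for all
systems of coefficients `|λ_i(q)| ≤ log ^ T N`, `i < L ≤ log ^ T N`, the following holds for all but at most
`#M / log ^ U N` elements `n` of `M`: for ALL integers `r > 0` with `|r - bil θ g h n| ≤ log ^ D N`, all `i` and all `y ≤ B N`
the sum of `λ_i(q) (ψ(y; q, r) - y / φ(q))` over the `q ≤ N exp (-K (log log N) ^ 2)` coprime to `r` has absolute value at most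
`N / log ^ U N`. -/
theorem result (b₁ b₂ l : ℕ) (hb₁ : 2 ≤ b₁) (hb₂ : 2 ≤ b₂) (hl : 1 ≤ l) (B D T U : ℕ) :
    ∃ K N₀ : ℕ, ∀ N : ℕ, N₀ ≤ N → ∀ (m₁ m₂ : ℕ) (𝒟₁ 𝒟₂ : ℕ → Finset ℕ) (θ : ℝ) (g h : ℕ → ℝ) (M : Finset (ℕ × ℕ)),
      Fam b₁ b₂ l D N m₁ m₂ 𝒟₁ 𝒟₂ θ g h M →
      ∀ L : ℕ, (L : ℝ) ≤ Real.log N ^ T → ∀ lam : Fin L → ℕ → ℝ, (∀ i q, |lam i q| ≤ Real.log N ^ T) →
      ∃ E : Finset (ℕ × ℕ), (E.card : ℝ) ≤ M.card / Real.log N ^ U ∧ ∀ n ∈ M, n ∉ E →
        ∀ r : ℕ, 0 < r → |(r : ℝ) - bil θ g h n| ≤ Real.log N ^ D → ∀ i, ∀ y ≤ B * N,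
          |weighted (lam i) (level K N) y r| ≤ N / Real.log N ^ U := by
  classical
  obtain ⟨h', hh, h1⟩ := (Pool.Agent.X31.Sch_bil hb₁ hb₂ l hl).enum
  obtain ⟨C, N₁, h1⟩ := h1 h' le_rfl D
  obtain ⟨K, N₂, h2⟩ := Pool.Agent.TH646.LV.lv_fam h' (max B 2) C T (T + U)
  refine ⟨K, N₁ + N₂ + 3, fun N hN m₁ m₂ 𝒟₁ 𝒟₂ θ g h M hfam L hL lam hlam => ?_⟩
  have hlog1 : 1 ≤ Real.log N := by
    rw [Real.le_log_iff_exp_le (by exact_mod_cast (by omega : 0 < N))]
    have : (3 : ℝ) ≤ N := by exact_mod_cast (by omega : 3 ≤ N)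
    linarith [Real.exp_one_lt_d9]
  have hlog0 : 0 < Real.log N := by linarith
  obtain ⟨Bad, hBad⟩ : ∃ Bad : Fin L → Finset (ℕ × ℕ), Bad = fun i => M.filter (fun n : (ℕ × ℕ) => ∃ r : ℕ, 0 < r ∧
      |(r : ℝ) - bil θ g h n| ≤ Real.log N ^ D ∧ ∃ y ≤ B * N,
        N / Real.log N ^ U < |weighted (lam i) (level K N) y r|) := ⟨_, rfl⟩
  have hb1 : ∀ i, ((Bad i).card : ℝ) ≤ M.card / Real.log N ^ (T + U) := by
    intro i
    have hch : ∀ n ∈ Bad i, ∃ r : ℕ, 0 < r ∧ |(r : ℝ) - bil θ g h n| ≤ Real.log N ^ D ∧ ∃ y ≤ B * N,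
        N / Real.log N ^ U < |weighted (lam i) (level K N) y r| := by
      intro n hn
      rw [hBad] at hn
      exact (mem_filter.1 hn).2
    choose! r hr using hch
    obtain ⟨s, φ, g1, g2, g3, g4, g5⟩ := h1 N (by omega) M _ ⟨m₁, m₂, 𝒟₁, 𝒟₂, θ, g, h, dat_of hfam, fun _ => rfl⟩ (Bad i)
      (fun n => (r n : ℤ)) (by rw [hBad]; exact filter_subset _ _) (by
        intro n hn
        have := (hr n hn).2.1
        push_cast
        exact this)
    have key := h2 N (by omega) M.card s (fun j hj => (g4 j hj).trans (by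
        apply mul_le_mul_of_nonneg_right _ (Int.natCast_nonneg _)
        exact_mod_cast le_max_right B 2)) g5 (lam i) (hlam i) (level K N)
      (Nat.floor_le (by positivity)) ((Bad i).image φ) (by
        intro j hj
        obtain ⟨n, hn, rfl⟩ := mem_image.1 hj
        exact g2 n hn) (by
        intro j hj
        obtain ⟨n, hn, rfl⟩ := mem_image.1 hj
        obtain ⟨r0, _, y, hy, hy2⟩ := hr n hn
        rw [g3 n hn]
        refine ⟨by exact_mod_cast r0, y, hy.trans (Nat.mul_le_mul_right _ (le_max_left B 2)), ?_⟩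
        rw [Int.toNat_natCast]
        refine lt_of_le_of_lt ?_ hy2
        apply div_le_div_of_nonneg_left (Nat.cast_nonneg _) (by positivity)
        exact pow_le_pow_right₀ hlog1 (by omega))
    rw [card_image_of_injOn g1] at key
    exact key
  refine ⟨univ.biUnion Bad, ?_, ?_⟩
  · calc ((univ.biUnion Bad).card : ℝ) ≤ ((∑ i, (Bad i).card : ℕ) : ℝ) := by
          exact_mod_cast card_biUnion_le
      _ ≤ ∑ _i : Fin L, (M.card : ℝ) / Real.log N ^ (T + U) := by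
          push_cast
          exact sum_le_sum fun i _ => hb1 i
      _ = L * (M.card / Real.log N ^ (T + U)) := by
          rw [sum_const, card_univ, Fintype.card_fin, nsmul_eq_mul]
      _ ≤ Real.log N ^ T * (M.card / Real.log N ^ (T + U)) := by gcongr
      _ = M.card / Real.log N ^ U := by
          rw [pow_add]
          field_simp
  · intro n hn hnE r hr hr2 i y hy
    by_contra hcon
    push Not at hcon
    apply hnE
    rw [mem_biUnion]
    refine ⟨i, mem_univ _, ?_⟩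
    rw [hBad]
    exact mem_filter.2 ⟨hn, r, hr, hr2, y, hy, hcon⟩

end Pool.Agent.Results.MP_00e23e_nt.BilinearResidues
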