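import Pool.Agent.TH646.LV.Level
import Pool.Agent.X31.F3

/-!
# Level of distribution `N exp (-K (log log N) ^ 2)` for all the residues near the values of generalised polynomials

`f(t) = ∑ a_x t ^ x` is an arbitrary finite real combination of real powers of `t` with a positive largest exponent `c`
(for instance `t ^ {3/2}`, `√2 t ^ 3 + t`). For almost all elements `n` of an ARBITRARY dense set `A ⊆ {1, ..., Y}` (for
instance: the primes), ALL residues `r > 0` with `|r - (b + f(n))| ≤ log ^ D N` satisfy an inequality of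
Bombieri-Vinogradov type, with arbitrary bounded weights and with the level `N exp (-K (log log N) ^ 2)`, far beyond `N ^ {1/2}`.

The bound for the real additive energy of all generalised polynomials is from `Pool.Agent.X31` (`gp_EB`, in this
run); the level of distribution for families of small energy is `Pool.Agent.TH646.LV.lv_fam` (starting files).
-/

set_option autoImplicit false

namespace Pool.Agent.Results.MP_00e23e_nt.GeneralisedPolynomialResidues

open Finset

/-- the generalised polynomial with the exponents `x ∈ F` and the coefficients `a x` -/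
noncomputable def f (F : Finset ℝ) (a : ℝ → ℝ) (t : ℝ) : ℝ := ∑ x ∈ F, a x * t ^ x

/-- `ψ(y; q, r)`: the sum of `Λ(n)` over the `n ≤ y` with `n ≡ r (mod q)`. -/
noncomputable def psi (y q r : ℕ) : ℝ :=
  ∑ n ∈ (Icc 1 y).filter (fun n => n ≡ r [MOD q]), ArithmeticFunction.vonMangoldt n

/-- The sum of `λ(q) (ψ(y; q, r) - y / φ(q))` over the `q ≤ Q` coprime to `r`. -/
noncomputable def weighted (lam : ℕ → ℝ) (Q y r : ℕ) : ℝ :=
  ∑ q ∈ (Icc 1 Q).filter (fun q => r.Coprime q), lam q * (psi y q r - (y : ℝ) / Nat.totient q)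

/-- The level `N exp (-K (log log N) ^ 2)`, rounded down. -/
noncomputable def level (K N : ℕ) : ℕ := ⌊(N : ℝ) * Real.exp (-(K * Real.log (Real.log N) ^ 2))⌋₊

/-- Let `F` be a finite set of real numbers with the maximum `c > 0`, `a c ≠ 0`, and `f(t) = ∑_{x ∈ F} a x * t ^ x`. Let
`B`, `D`, `T`, `U` be natural numbers. There is a `K` such that for all sufficiently large `N`, for all `Y` with
`N / log ^ D N ≤ Y ^ c ≤ N`, for EVERY set `A ⊆ {1, ..., Y}` with at least `Y / log ^ D N` elements, for every real number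
`b` with `|b| ≤ N`, and for all systems of coefficients `|λ_l(q)| ≤ log ^ T N`, `l < L ≤ log ^ T N`, the following holds for
all but at most `#A / log ^ U N` elements `n` of `A`: for ALL integers `r > 0` with `|r - (b + f(n))| ≤ log ^ D N`, all `l` and
all `y ≤ B N` the sum of `λ_l(q) (ψ(y; q, r) - y / φ(q))` over the `q ≤ N exp (-K (log log N) ^ 2)` coprime to `r` has absolute
value at most `N / log ^ U N`. -/
theorem result (F : Finset ℝ) (a : ℝ → ℝ) (c : ℝ) (hcF : c ∈ F) (hmax : ∀ x ∈ F, x ≤ c)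
    (hac : a c ≠ 0) (hc : 0 < c) (B D T U : ℕ) :
    ∃ K N₀ : ℕ, ∀ N : ℕ, N₀ ≤ N → ∀ Y : ℕ, (N : ℝ) / Real.log N ^ D ≤ (Y : ℝ) ^ c → (Y : ℝ) ^ c ≤ N →
      ∀ A : Finset ℕ, A ⊆ Icc 1 Y → (Y : ℝ) / Real.log N ^ D ≤ A.card → ∀ b : ℝ, |b| ≤ N →
      ∀ L : ℕ, (L : ℝ) ≤ Real.log N ^ T → ∀ lam : Fin L → ℕ → ℝ, (∀ l q, |lam l q| ≤ Real.log N ^ T) →
      ∃ E : Finset ℕ, (E.card : ℝ) ≤ A.card / Real.log N ^ U ∧ ∀ n ∈ A, n ∉ E →
        ∀ r : ℕ, 0 < r → |(r : ℝ) - (b + f F a n)| ≤ Real.log N ^ D → ∀ l, ∀ y ≤ B * N,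
          |weighted (lam l) (level K N) y r| ≤ N / Real.log N ^ U := by
  classical
  obtain ⟨h, hh, h1⟩ := Pool.Agent.X31.gp_enum F a c hcF hmax hac hc
  obtain ⟨C, B', N₁, h1⟩ := h1 h le_rfl D
  obtain ⟨K, N₂, h2⟩ := Pool.Agent.TH646.LV.lv_fam h (max B B') C T (T + U)
  refine ⟨K, N₁ + N₂ + 3, fun N hN Y hY1 hY2 A hA hAc b hb L hL lam hlam => ?_⟩
  have hlog1 : 1 ≤ Real.log N := by
    rw [Real.le_log_iff_exp_le (by exact_mod_cast (by omega : 0 < N))]
    have : (3 : ℝ) ≤ N := by exact_mod_cast (by omega : 3 ≤ N)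
    linarith [Real.exp_one_lt_d9]
  have hlog0 : 0 < Real.log N := by linarith
  obtain ⟨Bad, hBad⟩ : ∃ Bad : Fin L → Finset ℕ, Bad = fun l => A.filter (fun n : ℕ => ∃ r : ℕ, 0 < r ∧
      |(r : ℝ) - (b + f F a n)| ≤ Real.log N ^ D ∧ ∃ y ≤ B * N,
        N / Real.log N ^ U < |weighted (lam l) (level K N) y r|) := ⟨_, rfl⟩
  have hb1 : ∀ l, ((Bad l).card : ℝ) ≤ A.card / Real.log N ^ (T + U) := by
    intro l
    have hch : ∀ n ∈ Bad l, ∃ r : ℕ, 0 < r ∧ |(r : ℝ) - (b + f F a n)| ≤ Real.log N ^ D ∧ ∃ y ≤ B * N,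
        N / Real.log N ^ U < |weighted (lam l) (level K N) y r| := by
      intro n hn
      rw [hBad] at hn
      exact (mem_filter.1 hn).2
    choose! r hr using hch
    obtain ⟨s, φ, g1, g2, g3, g4, g5⟩ := h1 N (by omega) Y hY2 hY1 A hA hAc b hb (Bad l)
      (fun n => (r n : ℤ)) (by rw [hBad]; exact filter_subset _ _) (by
        intro n hn
        have := (hr n hn).2.1
        unfold f at this
        unfold Pool.Agent.X31.gp
        push_cast
        exact this)
    have key := h2 N (by omega) A.card s (fun j hj => (g4 j hj).trans (by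
        apply mul_le_mul_of_nonneg_right _ (Int.natCast_nonneg _)
        exact_mod_cast le_max_right B B')) g5 (lam l) (hlam l) (level K N)
      (Nat.floor_le (by positivity)) ((Bad l).image φ) (by
        intro j hj
        obtain ⟨n, hn, rfl⟩ := mem_image.1 hj
        exact g2 n hn) (by
        intro j hj
        obtain ⟨n, hn, rfl⟩ := mem_image.1 hj
        obtain ⟨r0, _, y, hy, hy2⟩ := hr n hn
        rw [g3 n hn]
        refine ⟨by exact_mod_cast r0, y, hy.trans (Nat.mul_le_mul_right _ (le_max_left B B')), ?_⟩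
        rw [Int.toNat_natCast]
        refine lt_of_le_of_lt ?_ hy2
        apply div_le_div_of_nonneg_left (Nat.cast_nonneg _) (by positivity)
        exact pow_le_pow_right₀ hlog1 (by omega))
    rw [card_image_of_injOn g1] at key
    exact key
  refine ⟨univ.biUnion Bad, ?_, ?_⟩
  · calc ((univ.biUnion Bad).card : ℝ) ≤ ((∑ l, (Bad l).card : ℕ) : ℝ) := by
          exact_mod_cast card_biUnion_le
      _ ≤ ∑ _l : Fin L, (A.card : ℝ) / Real.log N ^ (T + U) := by
          push_cast
          exact sum_le_sum fun l _ => hb1 l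
      _ = L * (A.card / Real.log N ^ (T + U)) := by
          rw [sum_const, card_univ, Fintype.card_fin, nsmul_eq_mul]
      _ ≤ Real.log N ^ T * (A.card / Real.log N ^ (T + U)) := by gcongr
      _ = A.card / Real.log N ^ U := by
          rw [pow_add]
          field_simp
  · intro n hn hnE r hr hr2 l y hy
    by_contra hcon
    push Not at hcon
    apply hnE
    rw [mem_biUnion]
    refine ⟨l, mem_univ _, ?_⟩
    rw [hBad]
    exact mem_filter.2 ⟨hn, r, hr, hr2, y, hy, hcon⟩

end Pool.Agent.Results.MP_00e23e_nt.GeneralisedPolynomialResidues
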