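import Pool.Agent.TH646.LV.Level
import Pool.Agent.X31.L1

/-!
# Level of distribution `N exp (-K (log log N) ^ 2)` for all residues near the values of polynomials at integers with
# missing digits

`f` is an arbitrary real polynomial of degree `d ≥ 2` (only the size of the leading coefficient is restricted), and `C` is
the set of the integers with `m` digits in base `b` whose digit at `b ^ j` is in `𝒟 j`, where the sets `𝒟 j` of allowed
digits are arbitrary with at least TWO elements (for instance: the integers with the decimal digits `0` and `1` only). For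
almost all elements `n` of an ARBITRARY dense subset of `C`, ALL residues `r > 0` with `|r - f(n)| ≤ log ^ D N` (for
instance `r = n ^ 2`) satisfy an inequality of Bombieri-Vinogradov type, with arbitrary bounded weights and with the level
`N exp (-K (log log N) ^ 2)`, far beyond `N ^ {1/2}`. The number of the residues can be as small as `N ^ ε`.

The minimal real additive energy of the values of polynomials at the integers with missing digits is from
`Pool.Agent.X31.K1` - `K9` (in this run); the level of distribution for families of small energy is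
`Pool.Agent.TH646.LV.lv_fam` (starting files).
-/

set_option autoImplicit false

namespace Pool.Agent.Results.MP_00e23e_nt.MissingDigitResidues

open Finset
open scoped Polynomial

/-- the integers `0 ≤ n < b ^ m` whose digit at `b ^ j` in base `b` is in `𝒟 j`, for all `j < m` -/
def Digits (b : ℕ) (𝒟 : ℕ → Finset ℕ) (m : ℕ) : Finset ℕ :=
  (range (b ^ m)).filter (fun n => ∀ j < m, n / b ^ j % b ∈ 𝒟 j)

/-- `A` is a subset with at least `#(Digits b 𝒟 m) / log ^ D N` elements of the set `Digits b 𝒟 m`, where all sets `𝒟 j`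
of allowed digits have at least two elements; `f` is a real polynomial of degree at most `d`, the coefficient of `x ^ d`
is at most `log ^ D N` and at least `N / (b ^ (d m) log ^ D N)` in absolute value, and `|f| ≤ N` on `A`. -/
def Fam (b d D N m : ℕ) (𝒟 : ℕ → Finset ℕ) (f : ℝ[X]) (A : Finset ℕ) : Prop :=
  (∀ j, 𝒟 j ⊆ range b ∧ 2 ≤ (𝒟 j).card) ∧
  f.natDegree ≤ d ∧ |f.coeff d| ≤ Real.log N ^ D ∧ (N : ℝ) / Real.log N ^ D ≤ |f.coeff d| * (b : ℝ) ^ (d * m) ∧
  A ⊆ Digits b 𝒟 m ∧ ((Digits b 𝒟 m).card : ℝ) / Real.log N ^ D ≤ A.card ∧ ∀ n ∈ A, |f.eval (n : ℝ)| ≤ N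

/-- `ψ(y; q, r)`: the sum of `Λ(n)` over the `n ≤ y` with `n ≡ r (mod q)`. -/
noncomputable def psi (y q r : ℕ) : ℝ :=
  ∑ n ∈ (Icc 1 y).filter (fun n => n ≡ r [MOD q]), ArithmeticFunction.vonMangoldt n

/-- The sum of `λ(q) (ψ(y; q, r) - y / φ(q))` over the `q ≤ Q` coprime to `r`. -/
noncomputable def weighted (lam : ℕ → ℝ) (Q y r : ℕ) : ℝ :=
  ∑ q ∈ (Icc 1 Q).filter (fun q => r.Coprime q), lam q * (psi y q r - (y : ℝ) / Nat.totient q)

/-- The level `N exp (-K (log log N) ^ 2)`, rounded down. -/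
noncomputable def level (K N : ℕ) : ℕ := ⌊(N : ℝ) * Real.exp (-(K * Real.log (Real.log N) ^ 2))⌋₊

lemma dat_of {b d D N m : ℕ} {𝒟 : ℕ → Finset ℕ} {f : ℝ[X]} {A : Finset ℕ} (h : Fam b d D N m 𝒟 f A) :
    Pool.Agent.X31.CT.Dat b d D N m 𝒟 f A :=
  ⟨h.1, h.2.1, h.2.2.1, h.2.2.2.1, h.2.2.2.2.1, h.2.2.2.2.2.1, h.2.2.2.2.2.2⟩

/-- Let `b, d ≥ 2` and `B`, `D`, `T`, `U` be natural numbers. There is a `K` such that for all sufficiently large `N`, every
number `m` of digits, ALL sets `𝒟 j` of allowed digits, ALL real polynomials `f` and every set `A` with `Fam b d D N m 𝒟 f A`,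
and for all systems of coefficients `|λ_l(q)| ≤ log ^ T N`, `l < L ≤ log ^ T N`, the following holds for
all but at most `#A / log ^ U N` elements `n` of `A`: for ALL integers `r > 0` with `|r - f(n)| ≤ log ^ D N`, all `l` and
all `y ≤ B N` the sum of `λ_l(q) (ψ(y; q, r) - y / φ(q))` over the `q ≤ N exp (-K (log log N) ^ 2)` coprime to `r` has absolute
value at most `N / log ^ U N`. -/
theorem result (b d : ℕ) (hb : 2 ≤ b) (hd : 2 ≤ d) (B D T U : ℕ) :
    ∃ K N₀ : ℕ, ∀ N : ℕ, N₀ ≤ N → ∀ (m : ℕ) (𝒟 : ℕ → Finset ℕ) (f : ℝ[X]) (A : Finset ℕ), Fam b d D N m 𝒟 f A →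
      ∀ L : ℕ, (L : ℝ) ≤ Real.log N ^ T → ∀ lam : Fin L → ℕ → ℝ, (∀ l q, |lam l q| ≤ Real.log N ^ T) →
      ∃ E : Finset ℕ, (E.card : ℝ) ≤ A.card / Real.log N ^ U ∧ ∀ n ∈ A, n ∉ E →
        ∀ r : ℕ, 0 < r → |(r : ℝ) - f.eval (n : ℝ)| ≤ Real.log N ^ D → ∀ l, ∀ y ≤ B * N,
          |weighted (lam l) (level K N) y r| ≤ N / Real.log N ^ U := by
  classical
  obtain ⟨h, hh, h1⟩ := Pool.Agent.X31.CT.dg_enum hb hd
  obtain ⟨C, N₁, h1⟩ := h1 h le_rfl D
  obtain ⟨K, N₂, h2⟩ := Pool.Agent.TH646.LV.lv_fam h (max B 2) C T (T + U)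
  refine ⟨K, N₁ + N₂ + 3, fun N hN m 𝒟 f A hfam L hL lam hlam => ?_⟩
  have hlog1 : 1 ≤ Real.log N := by
    rw [Real.le_log_iff_exp_le (by exact_mod_cast (by omega : 0 < N))]
    have : (3 : ℝ) ≤ N := by exact_mod_cast (by omega : 3 ≤ N)
    linarith [Real.exp_one_lt_d9]
  have hlog0 : 0 < Real.log N := by linarith
  obtain ⟨Bad, hBad⟩ : ∃ Bad : Fin L → Finset ℕ, Bad = fun l => A.filter (fun n : ℕ => ∃ r : ℕ, 0 < r ∧
      |(r : ℝ) - f.eval (n : ℝ)| ≤ Real.log N ^ D ∧ ∃ y ≤ B * N,
        N / Real.log N ^ U < |weighted (lam l) (level K N) y r|) := ⟨_, rfl⟩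
  have hb1 : ∀ l, ((Bad l).card : ℝ) ≤ A.card / Real.log N ^ (T + U) := by
    intro l
    have hch : ∀ n ∈ Bad l, ∃ r : ℕ, 0 < r ∧ |(r : ℝ) - f.eval (n : ℝ)| ≤ Real.log N ^ D ∧ ∃ y ≤ B * N,
        N / Real.log N ^ U < |weighted (lam l) (level K N) y r| := by
      intro n hn
      rw [hBad] at hn
      exact (mem_filter.1 hn).2
    choose! r hr using hch
    obtain ⟨s, φ, g1, g2, g3, g4, g5⟩ := h1 N (by omega) m 𝒟 f A (dat_of hfam) (Bad l)
      (fun n => (r n : ℤ)) (by rw [hBad]; exact filter_subset _ _) (by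
        intro n hn
        have := (hr n hn).2.1
        push_cast
        exact this)
    have key := h2 N (by omega) A.card s (fun j hj => (g4 j hj).trans (by
        apply mul_le_mul_of_nonneg_right _ (Int.natCast_nonneg _)
        exact_mod_cast le_max_right B 2)) g5 (lam l) (hlam l) (level K N)
      (Nat.floor_le (by positivity)) ((Bad l).image φ) (by
        intro j hj
        obtain ⟨n, hn, rfl⟩ := mem_image.1 hj
        exact g2 n hn) (by
        intro j hj
        obtain ⟨n, hn, rfl⟩ := mem_image.1 hj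
        obtain ⟨r0, _, y, hy, hy2⟩ := hr n hn
        rw [g3 n hn]
        refine ⟨by exact_mod_cast r0, y, hy.trans (Nat.mul_le_mul_right _ (le_max_left B 2)), ?_⟩
        rw [Int.toNat_natCast]
        refine lt_of_le_of_lt ?_ hy2
        apply div_le_div_of_nonneg_left (Nat.cast_nonneg _) (by positivity)
        exact pow_le_pow_right₀ hlog1 (by omega))
    rw [card_image_of_injOn g1] at key
    exact key
  refine ⟨univ.biUnion Bad, ?_, ?_⟩
  · calc ((univ.biUnion Bad).card : ℝ) ≤ ((∑ l, (Bad l).card : ℕ) : ℝ) := by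
          exact_mod_cast card_biUnion_le
      _ ≤ ∑ _l : Fin L, (A.card : ℝ) / Real.log N ^ (T + U) := by
          push_cast
          exact sum_le_sum fun l _ => hb1 l
      _ = L * (A.card / Real.log N ^ (T + U)) := by
          rw [sum_const, card_univ, Fintype.card_fin, nsmul_eq_mul]
      _ ≤ Real.log N ^ T * (A.card / Real.log N ^ (T + U)) := by gcongr
      _ = A.card / Real.log N ^ U := by
          rw [pow_add]
          field_simp
  · intro n hn hnE r hr hr2 l y hy
    by_contra hcon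
    push Not at hcon
    apply hnE
    rw [mem_biUnion]
    refine ⟨l, mem_univ _, ?_⟩
    rw [hBad]
    exact mem_filter.2 ⟨hn, r, hr, hr2, y, hy, hcon⟩

end Pool.Agent.Results.MP_00e23e_nt.MissingDigitResidues
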